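import Mathlib

/-!
# Homological algebra over a polynomial ring used for the FI-module example

* `mem_of_mul_mem` : monic one-variable polynomials in distinct variables form
  weakly regular sequences;
* `pd_quot` : the corresponding bound for the projective dimension;
* `no_socle` : over `P = K[x_a : a ∈ σ]`, `|σ| = N`, a finitely generated module of projective
  dimension `< N` has no nonzero element killed by a maximal ideal of a rational point.
-/

open MvPolynomial CategoryTheory Abelian RingTheory.Sequence

universe u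

namespace Pool.Agent.Y233.OI

section nzd

variable {σ : Type} {K : Type u} [Field K]

/-- The polynomial `f_a(x_a)`. -/
noncomputable def F (f : σ → Polynomial K) (a : σ) : MvPolynomial σ K :=
  Polynomial.aeval (X a) (f a)

/-- The ideal generated by `f_b(x_b)`, `b ∈ S`. -/
noncomputable def I (f : σ → Polynomial K) (S : Set σ) : Ideal (MvPolynomial σ K) :=
  Ideal.span ((F f) '' S)

theorem F_mem (f : σ → Polynomial K) {S : Set σ} {a : σ} (ha : a ∈ S) : F f a ∈ I f S :=
  Ideal.subset_span ⟨a, ha, rfl⟩

open Classical in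
theorem mem_of_mul_mem (f : σ → Polynomial K) (hf : ∀ a, (f a).Monic) (S : Set σ) (a : σ)
    (ha : a ∉ S) (p : MvPolynomial σ K) (h : F f a * p ∈ I f S) : p ∈ I f S := by
  set A := MvPolynomial σ K ⧸ I f S
  let mk : MvPolynomial σ K →ₐ[K] A := Ideal.Quotient.mkₐ K (I f S)
  let φ : MvPolynomial σ K →ₐ[K] Polynomial A :=
    aeval (fun b => if b = a then Polynomial.X else Polynomial.C (mk (X b)))
  let ev : Polynomial A →ₐ[K] A := (Polynomial.aeval (R := A) (mk (X a))).restrictScalars K
  have hev : ev.comp φ = mk := by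
    apply MvPolynomial.algHom_ext
    intro b
    by_cases hb : b = a
    · subst hb
      simp [φ, ev]
    · simp [φ, ev, hb]
  have hφS : ∀ q ∈ I f S, φ q = 0 := by
    intro q hq
    refine Submodule.span_induction (p := fun q _ => φ q = 0) ?_ ?_ ?_ ?_ hq
    · rintro _ ⟨b, hb, rfl⟩
      have hba : b ≠ a := fun h => ha (h ▸ hb)
      have h1 : φ (F f b) = Polynomial.C (mk (F f b)) := by
        unfold F
        rw [← Polynomial.aeval_algHom_apply, ← Polynomial.aeval_algHom_apply]
        have : φ (X b) = Polynomial.CAlgHom (R := K) (A := A) (mk (X b)) := by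
          simp [φ, hba]
        rw [this, Polynomial.aeval_algHom_apply]
        rfl
      rw [h1]
      have : mk (F f b) = 0 := Ideal.Quotient.eq_zero_iff_mem.mpr (F_mem f hb)
      rw [this, map_zero]
    · simp
    · intro x y _ _ hx hy
      rw [map_add, hx, hy, add_zero]
    · intro r x _ hx
      rw [smul_eq_mul, map_mul, hx, mul_zero]
  have h0 : φ (F f a) * φ p = 0 := by rw [← map_mul]; exact hφS _ h
  have hmon : (φ (F f a)).Monic := by
    have : φ (F f a) = (f a).map (algebraMap K A) := by
      unfold F
      rw [← Polynomial.aeval_algHom_apply]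
      have : φ (X a) = Polynomial.X := by simp [φ]
      rw [this]
      rw [Polynomial.aeval_def,
        show algebraMap K (Polynomial A) = Polynomial.C.comp (algebraMap K A) from rfl,
        ← Polynomial.eval₂_map, Polynomial.eval₂_C_X]
    rw [this]
    exact (hf a).map _
  have h1 : φ p = 0 := (hmon.isRegular.left.mul_left_eq_zero_iff).mp h0
  have h2 : mk p = 0 := by
    rw [← hev, AlgHom.comp_apply, h1, map_zero]
  exact Ideal.Quotient.eq_zero_iff_mem.mp h2

theorem I_insert (f : σ → Polynomial K) (S : Set σ) (a : σ) :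
    I f (insert a S) = I f S ⊔ Ideal.span {F f a} := by
  unfold I
  rw [Set.image_insert_eq, Ideal.span_insert, sup_comm]

theorem I_mono (f : σ → Polynomial K) {S T : Set σ} (h : S ⊆ T) : I f S ≤ I f T :=
  Ideal.span_mono (Set.image_mono h)

/-- The short exact sequence `P/I_S → P/I_S → P/I_{S ∪ {a}}`. -/
theorem pd_step (f : σ → Polynomial K) (hf : ∀ a, (f a).Monic) (S : Set σ) (a : σ)
    (ha : a ∉ S) (n : ℕ)
    (h : HasProjectiveDimensionLT (ModuleCat.of (MvPolynomial σ K) (MvPolynomial σ K ⧸ I f S))
      (n + 1)) :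
    HasProjectiveDimensionLT
      (ModuleCat.of (MvPolynomial σ K) (MvPolynomial σ K ⧸ I f (insert a S))) (n + 2) := by
  let P := MvPolynomial σ K
  let α : (P ⧸ I f S) →ₗ[P] (P ⧸ I f S) := LinearMap.lsmul P (P ⧸ I f S) (F f a)
  let β : (P ⧸ I f S) →ₗ[P] (P ⧸ I f (insert a S)) :=
    Submodule.factor (I_mono f (Set.subset_insert a S))
  have hex : Function.Exact α β := by
    intro x
    obtain ⟨p, rfl⟩ := Submodule.Quotient.mk_surjective _ x
    constructor
    · intro hx
      have h1 : p ∈ I f (insert a S) := by
        have : (Submodule.Quotient.mk p : P ⧸ I f (insert a S)) = 0 := hx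
        rwa [Submodule.Quotient.mk_eq_zero] at this
      rw [I_insert, Submodule.mem_sup] at h1
      obtain ⟨y, hy, z, hz, rfl⟩ := h1
      obtain ⟨q, rfl⟩ := Ideal.mem_span_singleton'.mp hz
      refine ⟨Submodule.Quotient.mk q, ?_⟩
      change (Submodule.Quotient.mk (F f a * q) : P ⧸ I f S) = _
      rw [Submodule.Quotient.eq]
      have : F f a * q - (y + q * F f a) = - y := by ring
      rw [this]
      exact (I f S).neg_mem hy
    · rintro ⟨y, hy⟩
      obtain ⟨q, rfl⟩ := Submodule.Quotient.mk_surjective _ y
      rw [← hy]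
      change (Submodule.Quotient.mk (F f a * q) : P ⧸ I f (insert a S)) = 0
      rw [Submodule.Quotient.mk_eq_zero]
      exact Ideal.mul_mem_right _ _ (F_mem f (Set.mem_insert a S))
  have hinj : Function.Injective α := by
    rw [injective_iff_map_eq_zero]
    intro x hx
    obtain ⟨p, rfl⟩ := Submodule.Quotient.mk_surjective _ x
    have : (Submodule.Quotient.mk (F f a * p) : P ⧸ I f S) = 0 := hx
    rw [Submodule.Quotient.mk_eq_zero] at this
    rw [Submodule.Quotient.mk_eq_zero]
    exact mem_of_mul_mem f hf S a ha p this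
  have hsurj : Function.Surjective β := by
    intro x
    obtain ⟨p, rfl⟩ := Submodule.Quotient.mk_surjective _ x
    exact ⟨Submodule.Quotient.mk p, rfl⟩
  let T : ShortComplex (ModuleCat P) :=
    ModuleCat.shortComplexOfCompEqZero α β hex.linearMap_comp_eq_zero
  have hT : T.ShortExact := by
    refine { exact := ModuleCat.shortComplex_exact _ hex, mono_f := ?_, epi_g := ?_ }
    · exact (ModuleCat.mono_iff_injective _).mpr hinj
    · exact (ModuleCat.epi_iff_surjective _).mpr hsurj
  have h' : HasProjectiveDimensionLT (ModuleCat.of P (P ⧸ I f S)) (n + 1) := h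
  have h'' : HasProjectiveDimensionLT (ModuleCat.of P (P ⧸ I f S)) (n + 2) :=
    hasProjectiveDimensionLT_of_ge _ (n + 1) (n + 2) (by omega)
  exact hT.hasProjectiveDimensionLT_X₃ (n + 1) h' h''

theorem pd_quot (f : σ → Polynomial K) (hf : ∀ a, (f a).Monic) (S : Finset σ) :
    HasProjectiveDimensionLT
      (ModuleCat.of (MvPolynomial σ K) (MvPolynomial σ K ⧸ I f (S : Set σ))) (S.card + 1) := by
  classical
  induction S using Finset.induction_on with
  | empty =>
    have : I f ((∅ : Finset σ) : Set σ) = ⊥ := by simp [I]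
    rw [this]
    have hp : Projective (ModuleCat.of (MvPolynomial σ K) (MvPolynomial σ K)) := inferInstance
    exact hasProjectiveDimensionLT_of_iso
      (X := ModuleCat.of (MvPolynomial σ K) (MvPolynomial σ K))
      (Submodule.quotEquivOfEqBot (⊥ : Ideal (MvPolynomial σ K)) rfl).symm.toModuleIso 1
  | insert a S ha ih =>
    rw [Finset.coe_insert, Finset.card_insert_of_notMem ha]
    exact pd_step f hf S a (by simpa using ha) S.card ih

end nzd

section rees

variable {σ : Type} {K : Type u} [Field K]

/-- The point `w` as a family of monic polynomials `X - w_a`. -/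
noncomputable def lin (w : σ → K) (a : σ) : Polynomial K := Polynomial.X - Polynomial.C (w a)

theorem F_lin (w : σ → K) (a : σ) : F (lin w) a = X a - C (w a) := by
  simp [F, lin, MvPolynomial.algebraMap_eq]

theorem lin_monic (w : σ → K) (a : σ) : (lin w a).Monic := Polynomial.monic_X_sub_C _

theorem eval_I (w : σ → K) (f : σ → Polynomial K) (S : Set σ)
    (h : ∀ a ∈ S, (f a).eval (w a) = 0) (p : MvPolynomial σ K) (hp : p ∈ I f S) :
    eval w p = 0 := by
  refine Submodule.span_induction (p := fun q _ => eval w q = 0) ?_ ?_ ?_ ?_ hp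
  · rintro _ ⟨b, hb, rfl⟩
    have : eval w (F f b) = (f b).eval (w b) := by
      unfold F
      have := Polynomial.aeval_algHom_apply (MvPolynomial.aeval (R := K) w) (X b) (f b)
      rw [MvPolynomial.aeval_X] at this
      rw [← MvPolynomial.coe_aeval_eq_eval, RingHom.coe_coe, ← this,
        Polynomial.coe_aeval_eq_eval]
    rw [this]
    exact h b hb
  · simp
  · intro x y _ _ hx hy
    rw [map_add, hx, hy, add_zero]
  · intro r x _ hx
    rw [smul_eq_mul, map_mul, hx, mul_zero]

theorem weaklyRegular (f : σ → Polynomial K) (hf : ∀ a, (f a).Monic) (l : List σ)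
    (hl : l.Nodup) : IsWeaklyRegular (MvPolynomial σ K) (l.map (F f)) := by
  rw [isWeaklyRegular_iff_Fin]
  intro i
  rw [isSMulRegular_iff_right_eq_zero_of_smul]
  intro x hx
  obtain ⟨p, rfl⟩ := Submodule.Quotient.mk_surjective _ x
  have hi : i.1 < l.length := by simpa using i.2
  have hid : (Ideal.ofList ((l.map (F f)).take i.1) • (⊤ : Submodule (MvPolynomial σ K)
      (MvPolynomial σ K))) = I f {a | a ∈ l.take i.1} := by
    rw [smul_eq_mul, Ideal.mul_top]
    unfold Ideal.ofList I
    congr 1
    ext y
    simp only [← List.map_take, List.mem_map, Set.mem_ofPred_eq, Set.mem_image]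
  rw [← Submodule.Quotient.mk_smul, Submodule.Quotient.mk_eq_zero, hid] at hx
  rw [Submodule.Quotient.mk_eq_zero, hid]
  have hget : (l.map (F f))[i] = F f (l[i.1]) := by simp
  rw [hget, smul_eq_mul] at hx
  refine mem_of_mul_mem f hf _ _ ?_ p hx
  intro hmem
  have hmem' : l[i.1] ∈ l.take i.1 := hmem
  rw [List.mem_take_iff_getElem] at hmem'
  obtain ⟨j, hj, hj'⟩ := hmem'
  have := (List.Nodup.getElem_inj_iff hl).mp hj'
  omega

/-- The residue field `P/m_w` at the rational point `w`, as a module. -/
noncomputable abbrev res (w : σ → K) : ModuleCat.{u} (MvPolynomial σ K) :=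
  ModuleCat.of (MvPolynomial σ K) (MvPolynomial σ K ⧸ I (lin w) Set.univ)

theorem I_ne_top (w : σ → K) : I (lin w) Set.univ ≠ ⊤ := by
  intro h
  have h1 : (1 : MvPolynomial σ K) ∈ I (lin w) Set.univ := by rw [h]; trivial
  have := eval_I w (lin w) Set.univ (fun a _ => by simp [lin]) 1 h1
  simp at this

theorem smul_top_ne_top (w : σ → K) (L : Type u) [AddCommGroup L]
    [Module (MvPolynomial σ K) L] [Module.Free (MvPolynomial σ K) L] [Nontrivial L] :
    I (lin w) Set.univ • (⊤ : Submodule (MvPolynomial σ K) L) ≠ ⊤ := by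
  intro h
  let b := Module.Free.chooseBasis (MvPolynomial σ K) L
  obtain ⟨i⟩ : Nonempty (Module.Free.ChooseBasisIndex (MvPolynomial σ K) L) := b.index_nonempty
  apply I_ne_top w
  rw [Ideal.eq_top_iff_one]
  have h1 : b i ∈ I (lin w) Set.univ • (⊤ : Submodule (MvPolynomial σ K) L) := by rw [h]; trivial
  have h2 := Submodule.smul_induction_on (p := fun x => b.coord i x ∈ I (lin w) Set.univ) h1
    (fun r hr n _ => by
      rw [map_smul, smul_eq_mul]
      exact Ideal.mul_mem_right _ _ hr)
    (fun x y hx hy => by
      rw [map_add]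
      exact (I (lin w) Set.univ).add_mem hx hy)
  simpa using h2

variable [Fintype σ]

theorem ext_free (w : σ → K) (L : Type u) [AddCommGroup L]
    [Module (MvPolynomial σ K) L] [Module.Free (MvPolynomial σ K) L]
    [Module.Finite (MvPolynomial σ K) L] (i : ℕ) (hi : i < Fintype.card σ) :
    Subsingleton (Ext (res w) (ModuleCat.of (MvPolynomial σ K) L) i) := by
  classical
  rcases subsingleton_or_nontrivial L with hL | hL
  · have hz : Limits.IsZero (ModuleCat.of (MvPolynomial σ K) L) :=
      ModuleCat.isZero_of_subsingleton _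
    refine ⟨fun x y => ?_⟩
    rw [← x.comp_mk₀_id, ← y.comp_mk₀_id, hz.eq_of_src (𝟙 _) 0, Ext.mk₀_zero, Ext.comp_zero,
      Ext.comp_zero]
  · let rs : List (MvPolynomial σ K) := (Finset.univ : Finset σ).toList.map (F (lin w))
    have hlen : rs.length = Fintype.card σ := by simp [rs]
    have hw : IsWeaklyRegular (MvPolynomial σ K) rs :=
      weaklyRegular _ (lin_monic w) _ (Finset.nodup_toList _)
    have hL' : IsWeaklyRegular L rs :=
      ((TensorProduct.rid (MvPolynomial σ K) L).isWeaklyRegular_congr rs).mp
        (hw.isWeaklyRegular_lTensor (M₂ := L))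
    have hofList : Ideal.ofList rs = I (lin w) Set.univ := by
      unfold Ideal.ofList I
      congr 1
      ext y
      simp [rs]
    have hreg : IsRegular L rs := by
      refine ⟨hL', ?_⟩
      rw [hofList]
      exact (smul_top_ne_top w L).symm
    refine ModuleCat.subsingleton_ext_of_exists_isRegular (I (lin w) Set.univ) (res w) ?_
      (ModuleCat.of (MvPolynomial σ K) L) ?_ rs ?_ hreg i (by rw [hlen]; exact hi)
    · rw [Module.support_eq_zeroLocus]
      apply PrimeSpectrum.zeroLocus_anti_mono
      intro x hx
      rw [SetLike.mem_coe, Module.mem_annihilator]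
      intro y
      obtain ⟨p, rfl⟩ := Submodule.Quotient.mk_surjective _ y
      rw [← Submodule.Quotient.mk_smul, Submodule.Quotient.mk_eq_zero, smul_eq_mul]
      exact Ideal.mul_mem_right _ _ hx
    · exact lt_of_le_of_ne le_top (smul_top_ne_top w L)
    · intro r hr
      rw [← hofList]
      exact Ideal.subset_span hr

theorem ext_pd (w : σ → K) (j : ℕ) : ∀ (M : ModuleCat.{u} (MvPolynomial σ K))
    [Module.Finite (MvPolynomial σ K) M], HasProjectiveDimensionLT M (j + 1) →
    ∀ i : ℕ, i + j < Fintype.card σ → Subsingleton (Ext (res w) M i) := by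
  induction j with
  | zero =>
    intro M _ hM i hi
    obtain ⟨L, _, _, _, _, f, hf⟩ := Module.exists_finite_presentation (MvPolynomial σ K) M
    have hp : Projective M := projective_iff_hasProjectiveDimensionLT_one.mpr hM
    let g : ModuleCat.of (MvPolynomial σ K) L ⟶ M := ModuleCat.ofHom f
    have hg : Epi g := (ModuleCat.epi_iff_surjective _).mpr hf
    let s : M ⟶ ModuleCat.of (MvPolynomial σ K) L := Projective.factorThru (𝟙 M) g
    have hs : s ≫ g = 𝟙 M := Projective.factorThru_comp _ _
    have hL := ext_free w L i (by omega)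
    refine ⟨fun x y => ?_⟩
    have key : ∀ x : Ext (res w) M i, x = 0 := by
      intro x
      rw [← x.comp_mk₀_id, ← hs, ← Ext.mk₀_comp_mk₀,
        ← Ext.comp_assoc_of_third_deg_zero, Subsingleton.elim (x.comp (Ext.mk₀ s) _) 0,
        Ext.zero_comp]
    rw [key x, key y]
  | succ j ih =>
    intro M _ hM i hi
    obtain ⟨L, _, _, _, _, f, hf⟩ := Module.exists_finite_presentation (MvPolynomial σ K) M
    let S : ShortComplex (ModuleCat.{u} (MvPolynomial σ K)) := f.shortComplexKer
    have hS : S.ShortExact := LinearMap.shortExact_shortComplexKer hf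
    have hL := ext_free w L i (by omega)
    have hp : Projective S.X₂ := by
      change Projective (ModuleCat.of (MvPolynomial σ K) L)
      infer_instance
    have hK : HasProjectiveDimensionLT S.X₁ (j + 1) :=
      (hS.hasProjectiveDimensionLT_X₃_iff j hp).mp hM
    have hfin : Module.Finite (MvPolynomial σ K) S.X₁ := by
      change Module.Finite (MvPolynomial σ K) (LinearMap.ker f)
      infer_instance
    have h1 := ih S.X₁ hK (i + 1) (by omega)
    have key : ∀ x : Ext (res w) M i, x = 0 := by
      intro x
      obtain ⟨y, hy⟩ := Ext.covariant_sequence_exact₃ (res w) hS x rfl (Subsingleton.elim _ _)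
      rw [← hy]
      have : y = 0 := @Subsingleton.elim _ hL _ _
      rw [this, Ext.zero_comp]
    exact ⟨fun x y => by rw [key x, key y]⟩

/-- A finitely generated module over `P = K[x_a : a ∈ σ]` of projective dimension `< |σ|`
has no nonzero element killed by the maximal ideal of a rational point. -/
theorem no_socle (w : σ → K) (M : Type u) [AddCommGroup M] [Module (MvPolynomial σ K) M]
    [Module.Finite (MvPolynomial σ K) M]
    (hM : HasProjectiveDimensionLT (ModuleCat.of (MvPolynomial σ K) M) (Fintype.card σ))
    (m : M) (hm : ∀ a, (X a - C (w a) : MvPolynomial σ K) • m = 0) : m = 0 := by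
  rcases Nat.eq_zero_or_pos (Fintype.card σ) with h0 | hpos
  · rw [h0] at hM
    have hz := isZero_of_hasProjectiveDimensionLT_zero (ModuleCat.of (MvPolynomial σ K) M)
    have : Subsingleton M := ModuleCat.subsingleton_of_isZero hz
    exact Subsingleton.elim _ _
  · obtain ⟨j, hj⟩ : ∃ j, Fintype.card σ = j + 1 := ⟨Fintype.card σ - 1, by omega⟩
    rw [hj] at hM
    have h := ext_pd w j (ModuleCat.of (MvPolynomial σ K) M) hM 0 (by omega)
    have hsub : Subsingleton (res w ⟶ ModuleCat.of (MvPolynomial σ K) M) :=
      (Ext.addEquiv₀.subsingleton_congr).mp h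
    have hle : I (lin w) Set.univ ≤ LinearMap.ker (LinearMap.toSpanSingleton
        (MvPolynomial σ K) M m) := by
      unfold I
      rw [Ideal.span, Submodule.span_le]
      rintro _ ⟨a, -, rfl⟩
      rw [F_lin]
      simpa using hm a
    let φ : (MvPolynomial σ K ⧸ I (lin w) Set.univ) →ₗ[MvPolynomial σ K] M :=
      Submodule.liftQ _ (LinearMap.toSpanSingleton (MvPolynomial σ K) M m) hle
    have h1 : (ModuleCat.ofHom φ : res w ⟶ ModuleCat.of (MvPolynomial σ K) M) = 0 :=
      Subsingleton.elim _ _
    have h2 : φ (Submodule.Quotient.mk 1) = m := by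
      change LinearMap.toSpanSingleton (MvPolynomial σ K) M m 1 = m
      simp
    have h3 : φ = 0 := by
      have := congrArg ModuleCat.Hom.hom h1
      simpa using this
    rw [← h2, h3]
    rfl

end rees

end Pool.Agent.Y233.OI
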