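import Mathlib

/-!
# FI-modules and OI-modules over the polynomial FI-algebra `P = (X^1)^{⊗ c}`

`P_n = K[x_{i,j} : 1 ≤ i ≤ c, 1 ≤ j ≤ n]`, and a morphism `ε : [m] → [n]` acts by
`x_{i,j} ↦ x_{i,ε(j)}`.
-/

open MvPolynomial CategoryTheory

universe u

namespace Pool.Agent.Y233.OI

/-- `P_n = K[x_{i,j} : i ∈ Fin c, j ∈ Fin n]`. -/
abbrev Poly (K : Type u) [Field K] (c n : ℕ) : Type u := MvPolynomial (Fin c × Fin n) K

/-- The `K`-algebra map `P(ε) : P_m → P_n`, `x_{i,j} ↦ x_{i,ε(j)}`. -/
noncomputable def polyMap (K : Type u) [Field K] (c : ℕ) {m n : ℕ} (ε : Fin m → Fin n) :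
    Poly K c m →ₐ[K] Poly K c n :=
  rename (fun a : Fin c × Fin m => (a.1, ε a.2))

/-- An FI-module over `P`: the morphisms `[m] → [n]` of FI are the injective maps
`Fin m ↪ Fin n`.  (`K`-linearity of `map` is the case `p = C a` of `map_smul`.) -/
structure FIModule (K : Type u) [Field K] (c : ℕ) where
  /-- the `P_n`-module `M_n` -/
  obj : ℕ → Type u
  [grp : ∀ n, AddCommGroup (obj n)]
  [mod : ∀ n, Module (Poly K c n) (obj n)]
  /-- the map `M(ε) : M_m → M_n` -/
  map : ∀ {m n : ℕ}, (Fin m ↪ Fin n) → obj m →+ obj n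
  map_id : ∀ (n : ℕ) (u : obj n), map (Function.Embedding.refl (Fin n)) u = u
  map_comp : ∀ {l m n : ℕ} (f : Fin l ↪ Fin m) (g : Fin m ↪ Fin n) (u : obj l),
    map (f.trans g) u = map g (map f u)
  map_smul : ∀ {m n : ℕ} (f : Fin m ↪ Fin n) (p : Poly K c m) (u : obj m),
    map f (p • u) = polyMap K c f p • map f u

/-- An OI-module over `P`: the morphisms `[m] → [n]` of OI are the strictly increasing maps
`Fin m ↪o Fin n`. -/
structure OIModule (K : Type u) [Field K] (c : ℕ) where
  /-- the `P_n`-module `M_n` -/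
  obj : ℕ → Type u
  [grp : ∀ n, AddCommGroup (obj n)]
  [mod : ∀ n, Module (Poly K c n) (obj n)]
  /-- the map `M(ε) : M_m → M_n` -/
  map : ∀ {m n : ℕ}, (Fin m ↪o Fin n) → obj m →+ obj n
  map_id : ∀ (n : ℕ) (u : obj n), map (RelEmbedding.refl (· ≤ ·)) u = u
  map_comp : ∀ {l m n : ℕ} (f : Fin l ↪o Fin m) (g : Fin m ↪o Fin n) (u : obj l),
    map (f.trans g) u = map g (map f u)
  map_smul : ∀ {m n : ℕ} (f : Fin m ↪o Fin n) (p : Poly K c m) (u : obj m),
    map f (p • u) = polyMap K c f p • map f u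

attribute [instance] FIModule.grp FIModule.mod OIModule.grp OIModule.mod

variable {K : Type u} [Field K] {c : ℕ}

/-- A submodule of an FI-module: `P_n`-submodules of the `M_n`, stable under all `M(ε)`. -/
structure FIModule.Sub (M : FIModule K c) where
  /-- the component in `M_n` -/
  carrier : ∀ n, Submodule (Poly K c n) (M.obj n)
  map_mem : ∀ {m n : ℕ} (f : Fin m ↪ Fin n) {u : M.obj m},
    u ∈ carrier m → M.map f u ∈ carrier n

/-- A submodule of an OI-module. -/
structure OIModule.Sub (M : OIModule K c) where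
  /-- the component in `M_n` -/
  carrier : ∀ n, Submodule (Poly K c n) (M.obj n)
  map_mem : ∀ {m n : ℕ} (f : Fin m ↪o Fin n) {u : M.obj m},
    u ∈ carrier m → M.map f u ∈ carrier n

/-- `M` is finitely generated: some finite subset of `⊔ M_n` lies in no proper submodule. -/
def FIModule.FG (M : FIModule K c) : Prop :=
  ∃ s : Finset (Σ n, M.obj n), ∀ N : M.Sub, (∀ x ∈ s, x.2 ∈ N.carrier x.1) →
    ∀ n, N.carrier n = ⊤

/-- `M` is finitely generated: some finite subset of `⊔ M_n` lies in no proper submodule. -/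
def OIModule.FG (M : OIModule K c) : Prop :=
  ∃ s : Finset (Σ n, M.obj n), ∀ N : M.Sub, (∀ x ∈ s, x.2 ∈ N.carrier x.1) →
    ∀ n, N.carrier n = ⊤

/-- The projective dimension of the `P_n`-module `M_n`. -/
noncomputable def FIModule.pd (M : FIModule K c) (n : ℕ) : WithBot ℕ∞ :=
  projectiveDimension (ModuleCat.of (Poly K c n) (M.obj n))

/-- The projective dimension of the `P_n`-module `M_n`. -/
noncomputable def OIModule.pd (M : OIModule K c) (n : ℕ) : WithBot ℕ∞ :=
  projectiveDimension (ModuleCat.of (Poly K c n) (M.obj n))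

/-- The OI-module underlying an FI-module (same modules, restricted to increasing maps). -/
def FIModule.toOI (M : FIModule K c) : OIModule K c where
  obj := M.obj
  map := fun f => M.map f.toEmbedding
  map_id := fun n u => M.map_id n u
  map_comp := fun f g u => M.map_comp f.toEmbedding g.toEmbedding u
  map_smul := fun f p u => M.map_smul f.toEmbedding p u

/-- A sequence `d : ℕ → WithBot ℕ∞` is eventually given by a linear function `A n + B`,
`A, B ∈ ℤ`. -/
def EventuallyLinear (d : ℕ → WithBot ℕ∞) : Prop :=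
  ∃ A B : ℤ, ∀ᶠ n : ℕ in Filter.atTop, ∃ k : ℕ, (k : ℤ) = A * n + B ∧ d n = (k : WithBot ℕ∞)

end Pool.Agent.Y233.OI
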