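import Pool.Agent.Y233.OI.Mod

/-!
# Projective dimension of `M(α, β)_n`
-/

open MvPolynomial CategoryTheory Abelian

universe u

namespace Pool.Agent.Y233.OI

variable {K : Type u} [Field K]

/-! ### Finite generation -/

theorem FIModule.fg_of_toOI {c : ℕ} (M : FIModule K c) (h : M.toOI.FG) : M.FG := by
  obtain ⟨s, hs⟩ := h
  refine ⟨s, fun N hN => ?_⟩
  exact hs ⟨N.carrier, fun f u hu => N.map_mem f.toEmbedding hu⟩ hN

section

variable (c : ℕ) [NeZero c] (α β : K)

/-- The inclusion `[1] → [n]` with image `{i}`. -/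
def single {n : ℕ} (i : Fin n) : Fin 1 ↪o Fin n where
  toFun := fun _ => i
  inj' := fun _ _ _ => Subsingleton.elim _ _
  map_rel_iff' := by
    intro a b
    simp [Subsingleton.elim a b]

theorem mod_fg : (mod c α β).toOI.FG := by
  classical
  let e : MM c α β 1 := Submodule.Quotient.mk (1, 0)
  let h : MM c α β 1 := Submodule.Quotient.mk (0, 1)
  refine ⟨{(⟨1, e⟩ : Σ n, (mod c α β).toOI.obj n), ⟨1, h⟩}, fun N hN n => ?_⟩
  have he : e ∈ N.carrier 1 := hN ⟨1, e⟩ (by simp)
  have hh : h ∈ N.carrier 1 := hN ⟨1, h⟩ (by simp)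
  have he' : ∀ i : Fin n, (Submodule.Quotient.mk (Pi.single i 1, 0) : MM c α β n)
      ∈ N.carrier n := by
    intro i
    have h1 := N.map_mem (single i) he
    have h2 : (mod c α β).toOI.map (single i) e =
        (Submodule.Quotient.mk (Pi.single i 1, 0) : MM c α β n) := by
      change (Submodule.Quotient.mk (pushL c _ (1, 0)) : MM c α β n) = _
      congr 1
      rw [pushL_apply]
      refine Prod.ext ?_ ?_
      · funext j
        by_cases hj : j = i
        · subst hj
          simp [push, single]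
        · have : ¬ (i = j) := fun h => hj h.symm
          simp [push, single, this, hj]
      · funext j
        simp [push]
    rw [h2] at h1
    exact h1
  have hh' : ∀ i : Fin n, (Submodule.Quotient.mk (0, Pi.single i 1) : MM c α β n)
      ∈ N.carrier n := by
    intro i
    have h1 := N.map_mem (single i) hh
    have h2 : (mod c α β).toOI.map (single i) h =
        (Submodule.Quotient.mk (0, Pi.single i 1) : MM c α β n) := by
      change (Submodule.Quotient.mk (pushL c _ (0, 1)) : MM c α β n) = _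
      congr 1
      rw [pushL_apply]
      refine Prod.ext ?_ ?_
      · funext j
        simp [push]
      · funext j
        by_cases hj : j = i
        · subst hj
          simp [push, single]
        · have : ¬ (i = j) := fun h => hj h.symm
          simp [push, single, this, hj]
    rw [h2] at h1
    exact h1
  rw [eq_top_iff]
  intro u _
  obtain ⟨⟨v, g⟩, rfl⟩ := Submodule.Quotient.mk_surjective (W c α β n) u
  have hvg : ((v, g) : (Fin n → Poly K c n) × (Fin n → Poly K c n)) =
      ∑ i, v i • (Pi.single i 1, 0) + ∑ i, g i • (0, Pi.single i 1) := by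
    refine Prod.ext ?_ ?_
    · simp only [Prod.fst_add, Prod.fst_sum, Prod.smul_fst, smul_zero, Finset.sum_const_zero,
        add_zero]
      exact pi_eq_sum_univ' v
    · simp only [Prod.snd_add, Prod.snd_sum, Prod.smul_snd, smul_zero, Finset.sum_const_zero,
        zero_add]
      exact pi_eq_sum_univ' g
  have hmk : (Submodule.Quotient.mk (v, g) : MM c α β n) =
      ∑ i, v i • (Submodule.Quotient.mk (Pi.single i 1, 0) : MM c α β n) +
      ∑ i, g i • (Submodule.Quotient.mk (0, Pi.single i 1) : MM c α β n) := by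
    rw [hvg]
    change (W c α β n).mkQ _ = _
    rw [map_add, map_sum, map_sum]
    rfl
  rw [hmk]
  refine Submodule.add_mem _ (Submodule.sum_mem _ fun i _ => ?_)
    (Submodule.sum_mem _ fun i _ => ?_)
  · exact Submodule.smul_mem _ _ (he' i)
  · exact Submodule.smul_mem _ _ (hh' i)

/-! ### The good case -/

/-- The value `1 + ∑ S_j` at a point of `{0,1}^n` with `b` coordinates equal to `1`. -/
def val (n b : ℕ) : K := 1 + α * n + (β - α) * b

/-- `U = 1 + ∑_j S_j` -/
noncomputable def U (n : ℕ) : Poly K c n := 1 + ∑ j, SS c α β n j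

theorem U_unit (n : ℕ) (h : ∀ b ≤ n, val α β n b ≠ 0) :
    IA K c n ⊔ Ideal.span {U c α β n} = ⊤ := by
  by_contra hne
  obtain ⟨m, hm, hle⟩ := Ideal.exists_le_maximal _ hne
  have hI : IA K c n ≤ m := le_trans le_sup_left hle
  have hU : U c α β n ∈ m := hle (Ideal.mem_sup_right (Ideal.mem_span_singleton_self _))
  let _ : Field (Poly K c n ⧸ m) := Ideal.Quotient.field m
  let π : Poly K c n →+* (Poly K c n ⧸ m) := Ideal.Quotient.mk m
  have hx : ∀ j : Fin n, π (X (0, j)) = 0 ∨ π (X (0, j)) = 1 := by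
    intro j
    have h1 : π (q K c n j) = 0 := Ideal.Quotient.eq_zero_iff_mem.mpr (hI (q_mem K c n j))
    rw [q, map_mul, mul_eq_zero] at h1
    rcases h1 with h1 | h1
    · exact Or.inl h1
    · right
      rw [map_sub, map_one, sub_eq_zero] at h1
      exact h1
  classical
  let B : Finset (Fin n) := Finset.univ.filter fun j => π (X (0, j)) = 1
  have hx' : ∀ j : Fin n, π (X (0, j)) = if j ∈ B then 1 else 0 := by
    intro j
    by_cases hj : π (X (0, j)) = 1
    · rw [if_pos (by simpa [B] using hj), hj]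
    · rw [if_neg (by simpa [B] using hj)]
      exact (hx j).resolve_right hj
  have hb : B.card ≤ n := by
    have := Finset.card_le_univ B
    simpa using this
  apply h B.card hb
  have h2 : π (C (val α β n B.card)) = 0 := by
    rw [← Ideal.Quotient.eq_zero_iff_mem.mpr hU]
    change _ = π (U c α β n)
    simp only [U, SS, map_add, map_one, map_sum, map_mul, hx', val, Finset.sum_add_distrib]
    simp only [mul_ite, mul_one, mul_zero, Finset.sum_ite_mem, Finset.univ_inter,
      Finset.sum_const, Finset.card_univ, Fintype.card_fin, nsmul_eq_mul, map_natCast]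
    ring
  have h3 : Function.Injective (π.comp (C : K →+* Poly K c n)) := RingHom.injective _
  exact (injective_iff_map_eq_zero _).mp h3 _ h2

/-- The map `M_n → ∏ P/I_{n,j}` before passing to the quotient. -/
noncomputable def Θ (n : ℕ) : ((Fin n → Poly K c n) × (Fin n → Poly K c n)) →ₗ[Poly K c n]
    (∀ j : Fin n, Poly K c n ⧸ IJ K c n j) :=
  LinearMap.pi fun j => (Submodule.mkQ (IJ K c n j)).comp (coord c α β n j)

theorem mem_ker_Θ (n : ℕ) (vg : (Fin n → Poly K c n) × (Fin n → Poly K c n)) :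
    vg ∈ LinearMap.ker (Θ c α β n) ↔ ∀ j, coord c α β n j vg ∈ IJ K c n j := by
  rw [LinearMap.mem_ker, funext_iff]
  refine forall_congr' fun j => ?_
  change (Submodule.Quotient.mk (coord c α β n j vg) : Poly K c n ⧸ IJ K c n j) = 0 ↔ _
  rw [Submodule.Quotient.mk_eq_zero]

theorem ker_Θ (n : ℕ) (h : ∀ b ≤ n, val α β n b ≠ 0) :
    W c α β n = LinearMap.ker (Θ c α β n) := by
  have hU := U_unit c α β n h
  rw [Ideal.eq_top_iff_one, Submodule.mem_sup] at hU
  obtain ⟨y, hy, z, hz, hyz⟩ := hU
  obtain ⟨u', rfl⟩ := Ideal.mem_span_singleton'.mp hz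
  ext ⟨v, g⟩
  rw [mem_ker_Θ, mem_W]
  refine ⟨fun h => h.2, fun h => ⟨?_, h⟩⟩
  -- `S_j Λ + v_j ∈ I`
  have h1 : ∀ j, SS c α β n j * (∑ i, v i) + v j ∈ IA K c n := by
    intro j
    have h2 := IJ_le K c n j (h j)
    rw [coord_apply] at h2
    have h3 : q K c n j * g j ∈ IA K c n := Ideal.mul_mem_right _ _ (q_mem K c n j)
    have h4 := Ideal.sub_mem _ h2 h3
    simpa using h4
  have h2 : U c α β n * (∑ i, v i) ∈ IA K c n := by
    have h3 : ∑ j, (SS c α β n j * (∑ i, v i) + v j) ∈ IA K c n :=
      Ideal.sum_mem _ fun j _ => h1 j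
    have h4 : U c α β n * (∑ i, v i) = ∑ j, (SS c α β n j * (∑ i, v i) + v j) := by
      rw [Finset.sum_add_distrib, ← Finset.sum_mul, U]
      ring
    rw [h4]; exact h3
  have h3 : (∑ i, v i) ∈ IA K c n := by
    have h4 : (∑ i, v i) = y * (∑ i, v i) + u' * (U c α β n * (∑ i, v i)) := by
      calc (∑ i, v i) = (y + u' * U c α β n) * (∑ i, v i) := by rw [hyz, one_mul]
        _ = _ := by ring
    rw [h4]
    exact Ideal.add_mem _ (Ideal.mul_mem_right _ _ hy) (Ideal.mul_mem_left _ _ h2)
  intro j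
  have h4 := Ideal.sub_mem _ (h1 j) (Ideal.mul_mem_left _ (SS c α β n j) h3)
  simpa using h4

theorem Θ_surj (n : ℕ) (h : ∀ b ≤ n, val α β n b ≠ 0) : Function.Surjective (Θ c α β n) := by
  have hU := U_unit c α β n h
  rw [Ideal.eq_top_iff_one, Submodule.mem_sup] at hU
  obtain ⟨y, hy, z, hz, hyz⟩ := hU
  obtain ⟨u', rfl⟩ := Ideal.mem_span_singleton'.mp hz
  intro t
  choose t' ht' using fun j => Submodule.Quotient.mk_surjective (IJ K c n j) (t j)
  let Λ : Poly K c n := u' * ∑ j, t' j
  let v : Fin n → Poly K c n := fun j => t' j - SS c α β n j * Λ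
  have hv : (∑ j, v j) - Λ ∈ IA K c n := by
    have : (∑ j, v j) - Λ = y * ∑ j, t' j := by
      simp only [v, Finset.sum_sub_distrib, ← Finset.sum_mul]
      have h5 : (∑ j, SS c α β n j) = U c α β n - 1 := by rw [U]; ring
      rw [h5]
      have h6 : (∑ j, t' j) = (y + u' * U c α β n) * (∑ j, t' j) := by rw [hyz, one_mul]
      calc (∑ j, t' j) - (U c α β n - 1) * Λ - Λ = (∑ j, t' j) - U c α β n * Λ := by ring
        _ = (y + u' * U c α β n) * (∑ j, t' j) - U c α β n * Λ := by rw [← h6]
        _ = _ := by simp only [Λ]; ring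
    rw [this]
    exact Ideal.mul_mem_right _ _ hy
  have hdec : ∀ j, ∃ a b : Poly K c n, a ∈ IJ K c n j ∧ (∑ j, v j) - Λ = a + b * q K c n j := by
    intro j
    have h1 := hv
    rw [IA_eq K c n j, Submodule.mem_sup] at h1
    obtain ⟨a, ha, z, hz, h2⟩ := h1
    obtain ⟨b, rfl⟩ := Ideal.mem_span_singleton'.mp hz
    exact ⟨a, b, ha, h2.symm⟩
  choose a b ha hab using hdec
  refine ⟨(v, fun j => - (SS c α β n j * b j)), ?_⟩
  funext j
  rw [← ht' j]
  change (Submodule.Quotient.mk (coord c α β n j _) : Poly K c n ⧸ IJ K c n j) = _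
  rw [Submodule.Quotient.eq, coord_apply]
  have h1 : SS c α β n j * (∑ i, v i) + v j + q K c n j * (- (SS c α β n j * b j)) - t' j =
      SS c α β n j * a j := by
    have h2 : (∑ i, v i) = Λ + (a j + b j * q K c n j) := by rw [← hab j]; ring
    change SS c α β n j * (∑ i, v i) + (t' j - SS c α β n j * Λ) + _ - t' j = _
    rw [h2]
    ring
  simp only [h1]
  exact Ideal.mul_mem_left _ _ (ha j)

/-- A finite product of modules of projective dimension `< d` has projective dimension `< d`. -/
theorem pd_pi {R : Type u} [CommRing R] {ι : Type} [Fintype ι] (Q : ι → Type u)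
    [∀ i, AddCommGroup (Q i)] [∀ i, Module R (Q i)] (d : ℕ)
    (h : ∀ i, HasProjectiveDimensionLT (ModuleCat.of R (Q i)) d) :
    HasProjectiveDimensionLT (ModuleCat.of R (∀ i, Q i)) d := by
  classical
  rw [hasProjectiveDimensionLT_iff]
  intro i hi Y e
  let A := ModuleCat.of R (∀ i, Q i)
  let p : ∀ i, A ⟶ ModuleCat.of R (Q i) := fun i => ModuleCat.ofHom (LinearMap.proj i)
  let s : ∀ i, ModuleCat.of R (Q i) ⟶ A := fun i => ModuleCat.ofHom (LinearMap.single R Q i)
  have hid : 𝟙 A = ∑ i, p i ≫ s i := by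
    apply ModuleCat.hom_ext
    apply LinearMap.ext
    intro x
    rw [ModuleCat.hom_sum]
    simp only [LinearMap.sum_apply]
    change x = ∑ i, Pi.single i (x i)
    exact (Finset.univ_sum_single x).symm
  rw [← e.mk₀_id_comp, hid, Ext.mk₀_sum, Ext.sum_comp]
  refine Finset.sum_eq_zero fun k _ => ?_
  rw [← Ext.mk₀_comp_mk₀, Ext.comp_assoc_of_second_deg_zero]
  have := h k
  rw [((Ext.mk₀ (s k)).comp e (zero_add i)).eq_zero_of_hasProjectiveDimensionLT d hi,
    Ext.comp_zero]

theorem pd_good (n : ℕ) (hn : 1 ≤ n) (h : ∀ b ≤ n, val α β n b ≠ 0) :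
    HasProjectiveDimensionLT (ModuleCat.of (Poly K c n) (MM c α β n)) (c * n) := by
  classical
  let e : MM c α β n ≃ₗ[Poly K c n] (∀ j : Fin n, Poly K c n ⧸ IJ K c n j) :=
    (Submodule.quotEquivOfEq _ _ (ker_Θ c α β n h)).trans
      ((Θ c α β n).quotKerEquivOfSurjective (Θ_surj c α β n h))
  have hc : 1 ≤ c := Nat.one_le_iff_ne_zero.mpr (NeZero.ne c)
  have hcn : 1 ≤ c * n := Nat.mul_pos hc hn
  have hj : ∀ j : Fin n, HasProjectiveDimensionLT
      (ModuleCat.of (Poly K c n) (Poly K c n ⧸ IJ K c n j)) (c * n) := by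
    intro j
    have h1 := pd_quot (fam K c n) (fam_monic K c n) (Finset.univ.erase (0, j))
    have h2 : ((Finset.univ.erase ((0 : Fin c), j) : Finset (Fin c × Fin n)) :
        Set (Fin c × Fin n)) = {a | a ≠ (0, j)} := by
      ext a
      simp
    have h3 : (Finset.univ.erase ((0 : Fin c), j) : Finset (Fin c × Fin n)).card + 1 = c * n := by
      rw [Finset.card_erase_of_mem (Finset.mem_univ _)]
      simp only [Finset.card_univ, Fintype.card_prod, Fintype.card_fin]
      omega
    rw [h3, h2] at h1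
    exact h1
  have hpi := pd_pi (fun j : Fin n => Poly K c n ⧸ IJ K c n j) (c * n) hj
  exact hasProjectiveDimensionLT_of_iso e.symm.toModuleIso (c * n)

/-! ### The bad case -/

/-- The point of `{0,1}^n ⊂ K^{c n}` with the first `b` first-row coordinates equal to `1`. -/
def pt (K : Type u) [Field K] (c : ℕ) [NeZero c] (n b : ℕ) (a : Fin c × Fin n) : K :=
  if a.1 = 0 ∧ a.2.1 < b then 1 else 0

/-- The indicator polynomial of the point. -/
noncomputable def δ (K : Type u) [Field K] (c : ℕ) [NeZero c] (n b : ℕ) : Poly K c n :=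
  ∏ j : Fin n, if j.1 < b then X (0, j) else 1 - X (0, j)

theorem eval_δ (n b : ℕ) : eval (pt K c n b) (δ K c n b) = 1 := by
  simp only [δ, map_prod]
  refine Finset.prod_eq_one fun j _ => ?_
  split_ifs with h
  · simp [pt, h]
  · simp [pt, h]

theorem pt_mul_δ (n b : ℕ) (a : Fin c × Fin n) :
    (X a - C (pt K c n b a)) * δ K c n b ∈ IA K c n := by
  classical
  obtain ⟨i, j⟩ := a
  by_cases hi : i = 0
  · subst hi
    rw [δ, ← Finset.mul_prod_erase Finset.univ _ (Finset.mem_univ j), ← mul_assoc]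
    refine Ideal.mul_mem_right _ _ ?_
    by_cases hj : j.1 < b
    · have h1 : (X (0, j) - C (pt K c n b (0, j))) * (if j.1 < b then X (0, j) else
          1 - X (0, j)) = q K c n j := by
        simp [pt, hj, q]
        ring
      rw [h1]
      exact q_mem K c n j
    · have h1 : (X (0, j) - C (pt K c n b (0, j))) * (if j.1 < b then X (0, j) else
          1 - X (0, j)) = - q K c n j := by
        simp [pt, hj, q]
        ring
      rw [h1]
      exact (IA K c n).neg_mem (q_mem K c n j)
  · refine Ideal.mul_mem_right _ _ ?_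
    have h1 : X (i, j) - C (pt K c n b (i, j)) = F (fam K c n) (i, j) := by
      rw [F_fam_ne _ _ _ _ hi]
      simp [pt, hi]
    rw [h1]
    exact F_mem _ (Set.mem_univ _)

theorem U_mul_δ (n b : ℕ) (hb : b ≤ n) (h : val α β n b = 0) :
    U c α β n * δ K c n b ∈ IA K c n := by
  have h1 : U c α β n * δ K c n b =
      C (val α β n b) * δ K c n b +
        ∑ j : Fin n, C (β - α) * ((X (0, j) - C (pt K c n b (0, j))) * δ K c n b) := by
    have h2 : ∑ j : Fin n, pt K c n b ((0 : Fin c), j) = b := by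
      simp only [pt, true_and]
      rw [Finset.sum_boole]
      congr 1
      have : (Finset.univ.filter fun j : Fin n => j.1 < b).card = min n b := by
        exact Fin.card_filter_val_lt
      rw [this, min_eq_right hb]
    have h3 : (∑ j : Fin n, C (β - α) * ((X (0, j) - C (pt K c n b (0, j))) * δ K c n b)) =
        (∑ j : Fin n, C (β - α) * X (0, j)) * δ K c n b - C ((β - α) * b) * δ K c n b := by
      rw [← h2]
      simp only [Finset.mul_sum, map_sum, Finset.sum_mul, ← Finset.sum_sub_distrib, map_mul]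
      refine Finset.sum_congr rfl fun j _ => ?_
      ring
    rw [h3]
    simp only [U, SS, val, Finset.sum_add_distrib, map_add, map_one, map_mul, map_natCast,
      Finset.sum_const, Finset.card_univ, Fintype.card_fin, nsmul_eq_mul]
    ring
  rw [h1, h, map_zero, zero_mul, zero_add]
  exact Ideal.sum_mem _ fun j _ => Ideal.mul_mem_left _ _ (pt_mul_δ c n b (0, j))

theorem pd_bad (hα : α ≠ 0) (hβ : β ≠ 0) (n : ℕ) (hn : 1 ≤ n)
    (h : ∃ b ≤ n, val α β n b = 0) :
    ¬ HasProjectiveDimensionLT (ModuleCat.of (Poly K c n) (MM c α β n)) (c * n) := by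
  obtain ⟨b, hb, hval⟩ := h
  intro hpd
  have hU := U_mul_δ c α β n b hb hval
  have hdec : ∀ j, ∃ y z : Poly K c n, y ∈ IJ K c n j ∧
      U c α β n * δ K c n b = y + z * q K c n j := by
    intro j
    have h1 := hU
    rw [IA_eq K c n j, Submodule.mem_sup] at h1
    obtain ⟨a, ha, z, hz, h2⟩ := h1
    obtain ⟨b, rfl⟩ := Ideal.mem_span_singleton'.mp hz
    exact ⟨a, b, ha, h2.symm⟩
  choose y z hy hyz using hdec
  let v : Fin n → Poly K c n := fun j => - (SS c α β n j * δ K c n b)
  let g : Fin n → Poly K c n := fun j => SS c α β n j * z j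
  have hcoord : ∀ j, coord c α β n j (v, g) ∈ IJ K c n j := by
    intro j
    have h1 : coord c α β n j (v, g) = - (SS c α β n j * y j) := by
      rw [coord_apply]
      have h2 : (∑ i, v i) = - ((U c α β n - 1) * δ K c n b) := by
        simp only [v, Finset.sum_neg_distrib, ← Finset.sum_mul, U]
        ring
      change SS c α β n j * (∑ i, v i) + (- (SS c α β n j * δ K c n b)) +
        q K c n j * (SS c α β n j * z j) = _
      rw [h2]
      have h3 := hyz j
      calc SS c α β n j * -((U c α β n - 1) * δ K c n b) + -(SS c α β n j * δ K c n b) +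
            q K c n j * (SS c α β n j * z j)
          = - (SS c α β n j * (U c α β n * δ K c n b)) +
            q K c n j * (SS c α β n j * z j) := by ring
        _ = _ := by rw [h3]; ring
    rw [h1]
    exact (IJ K c n j).neg_mem (Ideal.mul_mem_left _ _ (hy j))
  have hcard : Fintype.card (Fin c × Fin n) = c * n := by simp
  have hfin : Module.Finite (MvPolynomial (Fin c × Fin n) K) (MM c α β n) := by
    unfold MM
    infer_instance
  have hzero := no_socle (pt K c n b) (MM c α β n) (by rw [hcard]; exact hpd)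
    (Submodule.Quotient.mk (v, g)) (by
      intro a
      rw [← Submodule.Quotient.mk_smul, Submodule.Quotient.mk_eq_zero, mem_W]
      refine ⟨fun i => ?_, fun j => ?_⟩
      · change (X a - C (pt K c n b a)) * (- (SS c α β n i * δ K c n b)) ∈ _
        have h1 : (X a - C (pt K c n b a)) * (- (SS c α β n i * δ K c n b)) =
            - SS c α β n i * ((X a - C (pt K c n b a)) * δ K c n b) := by ring
        rw [h1]
        exact Ideal.mul_mem_left _ _ (pt_mul_δ c n b a)
      · rw [map_smul]
        exact Ideal.mul_mem_left _ _ (hcoord j))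
  rw [Submodule.Quotient.mk_eq_zero, mem_W] at hzero
  have h0 := hzero.1 ⟨0, hn⟩
  have h1 := eval_I (pt K c n b) (fam K c n) Set.univ (by
    intro a _
    unfold fam pt
    by_cases h : a.1 = 0
    · by_cases h' : a.2.1 < b <;> simp [h, h']
    · simp [h]) _ h0
  simp only [v, map_neg, map_mul, eval_δ, mul_one, neg_eq_zero] at h1
  simp only [SS, map_add, map_mul, eval_C, eval_X, pt, true_and] at h1
  split_ifs at h1
  · apply hβ; linear_combination h1
  · apply hα; linear_combination h1

end

/-! ### Main theorem -/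

theorem not_linear {c : ℕ} (M : FIModule K c)
    (h1 : ∀ N : ℕ, ∃ n ≥ N, ¬ HasProjectiveDimensionLT (ModuleCat.of (Poly K c n) (M.obj n)) (c * n))
    (h2 : ∀ N : ℕ, ∃ n ≥ N, HasProjectiveDimensionLT (ModuleCat.of (Poly K c n) (M.obj n)) (c * n)) :
    ¬ EventuallyLinear M.pd := by
  rintro ⟨A, B, h⟩
  obtain ⟨N, hN⟩ := Filter.eventually_atTop.mp h
  have h1' : ∀ m : ℕ, ∃ n ≥ m, (c : ℤ) * n ≤ A * n + B := by
    intro m
    obtain ⟨n, hn, hn'⟩ := h1 (max m N)
    refine ⟨n, le_trans (le_max_left _ _) hn, ?_⟩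
    obtain ⟨k, hk, hk'⟩ := hN n (le_trans (le_max_right _ _) hn)
    rw [← hk]
    rw [← projectiveDimension_ge_iff] at hn'
    have h3 : ((c * n : ℕ) : WithBot ℕ∞) ≤ (k : WithBot ℕ∞) := by rw [← hk']; exact hn'
    have h4 : c * n ≤ k := by exact_mod_cast h3
    exact_mod_cast h4
  have h2' : ∀ m : ℕ, ∃ n ≥ m, A * n + B < (c : ℤ) * n := by
    intro m
    obtain ⟨n, hn, hn'⟩ := h2 (max m N)
    refine ⟨n, le_trans (le_max_left _ _) hn, ?_⟩
    obtain ⟨k, hk, hk'⟩ := hN n (le_trans (le_max_right _ _) hn)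
    rw [← hk]
    rw [← projectiveDimension_lt_iff] at hn'
    have h3 : (k : WithBot ℕ∞) < ((c * n : ℕ) : WithBot ℕ∞) := by rw [← hk']; exact hn'
    have h4 : k < c * n := by exact_mod_cast h3
    exact_mod_cast h4
  -- `A ≥ c`
  have hA : (c : ℤ) ≤ A := by
    by_contra hlt
    push Not at hlt
    obtain ⟨n, hn, hn'⟩ := h1' (B.natAbs + 1)
    have h3 : (B.natAbs : ℤ) + 1 ≤ n := by exact_mod_cast hn
    have h4 : B ≤ B.natAbs := Int.le_natAbs
    have h5 : (n : ℤ) ≤ (c - A) * n := by nlinarith
    nlinarith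
  have hA' : A ≤ c := by
    by_contra hlt
    push Not at hlt
    obtain ⟨n, hn, hn'⟩ := h2' (B.natAbs + 1)
    have h3 : (B.natAbs : ℤ) + 1 ≤ n := by exact_mod_cast hn
    have h4 : -B ≤ B.natAbs := by omega
    have h5 : (n : ℤ) ≤ (A - c) * n := by nlinarith
    nlinarith
  have hAc : A = c := le_antisymm hA' hA
  subst hAc
  obtain ⟨n, _, hn⟩ := h1' 0
  obtain ⟨m, _, hm⟩ := h2' 0
  linarith

theorem exists_params (K : Type u) [Field K] : ∃ α β : K, α ≠ 0 ∧ β ≠ 0 ∧
    (∀ N : ℕ, ∃ n ≥ N, 1 ≤ n ∧ ∃ b ≤ n, val α β n b = 0) ∧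
    (∀ N : ℕ, ∃ n ≥ N, 1 ≤ n ∧ ∀ b ≤ n, val α β n b ≠ 0) := by
  obtain ⟨p, hp⟩ := CharP.exists K
  rcases Nat.eq_zero_or_pos p with rfl | hpos
  · have : CharZero K := CharP.charP_to_charZero K
    refine ⟨1, -1, one_ne_zero, neg_ne_zero.mpr one_ne_zero, ?_, ?_⟩
    · intro N
      refine ⟨2 * N + 1, by omega, by omega, N + 1, by omega, ?_⟩
      simp only [val]
      push_cast
      ring
    · intro N
      refine ⟨2 * N + 2, by omega, by omega, fun b _ h => ?_⟩
      simp only [val] at h
      have h1 : ((2 * N + 3 : ℕ) : K) = ((2 * b : ℕ) : K) := by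
        push_cast at h ⊢
        linear_combination h
      have h2 : 2 * N + 3 = 2 * b := by exact_mod_cast h1
      omega
  · have hne : (-1 : K) ≠ 0 := neg_ne_zero.mpr one_ne_zero
    refine ⟨-1, -1, hne, hne, ?_, ?_⟩
    · intro N
      have h1 : N ≤ p * N := Nat.le_mul_of_pos_left N hpos
      refine ⟨p * N + 1, by omega, by omega, 0, by omega, ?_⟩
      simp [val]
    · intro N
      have h1 : N + 1 ≤ p * (N + 1) := Nat.le_mul_of_pos_left (N + 1) hpos
      refine ⟨p * (N + 1), by omega, by omega, fun b _ h => ?_⟩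
      simp [val] at h

/-- For every field `K` and every `c ≥ 1` there is a finitely generated FI-module over
`P = (X^{FI,1})^{⊗ c}` whose projective dimension is not eventually linear. -/
theorem main (K : Type u) [Field K] (c : ℕ) (hc : 1 ≤ c) :
    ∃ M : FIModule K c, M.FG ∧ M.toOI.FG ∧ ¬ EventuallyLinear M.pd ∧
      ¬ EventuallyLinear M.toOI.pd := by
  have : NeZero c := ⟨by omega⟩
  obtain ⟨α, β, hα, hβ, h1, h2⟩ := exists_params K
  have hmain : ¬ EventuallyLinear (mod c α β).pd := by
    refine not_linear _ ?_ ?_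
    · intro N
      obtain ⟨n, hn, hn1, hb⟩ := h1 N
      exact ⟨n, hn, pd_bad c α β hα hβ n hn1 hb⟩
    · intro N
      obtain ⟨n, hn, hn1, hb⟩ := h2 N
      exact ⟨n, hn, pd_good c α β n hn1 hb⟩
  exact ⟨mod c α β, FIModule.fg_of_toOI _ (mod_fg c α β), mod_fg c α β, hmain, hmain⟩

end Pool.Agent.Y233.OI
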