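import Pool.Agent.Y233.OI.Alg
import Pool.Agent.Y233.OI.Defs

/-!
# The FI-module `M(α, β)`

`M_n` is the quotient of `P_n^n ⊕ P_n^n` (basis `e_i`, `h_j`) by the submodule of all `(v, g)` such
that `v_i ∈ I_n` for all `i` and `S_j ∑ v_i + v_j + q_j g_j ∈ I_{n,j}` for all `j`.  Here
`q_j = x_{1,j} (x_{1,j} - 1)`, `S_j = α + (β - α) x_{1,j}`, `I_n` is generated by all the `q_k` and
all the variables `x_{i,k}`, `i ≥ 2`, and `I_{n,j}` by the same elements without `q_j`.
-/

open MvPolynomial CategoryTheory Abelian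

universe u

namespace Pool.Agent.Y233.OI

section push

variable {K : Type u} [Field K] {c : ℕ}

/-- Push-forward of a vector along an injection. -/
noncomputable def push {m n : ℕ} (f : Fin m ↪ Fin n) (v : Fin m → Poly K c m) :
    Fin n → Poly K c n :=
  fun j => ∑ i, if f i = j then polyMap K c f (v i) else 0

theorem push_add {m n : ℕ} (f : Fin m ↪ Fin n) (v w : Fin m → Poly K c m) :
    push f (v + w) = push f v + push f w := by
  funext j
  simp only [push, Pi.add_apply, map_add, ← Finset.sum_add_distrib]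
  refine Finset.sum_congr rfl fun i _ => ?_
  split_ifs <;> simp

theorem push_smul {m n : ℕ} (f : Fin m ↪ Fin n) (p : Poly K c m) (v : Fin m → Poly K c m) :
    push f (p • v) = polyMap K c f p • push f v := by
  funext j
  simp only [push, Pi.smul_apply, smul_eq_mul, map_mul, Finset.mul_sum]
  refine Finset.sum_congr rfl fun i _ => ?_
  split_ifs <;> simp

theorem push_apply {m n : ℕ} (f : Fin m ↪ Fin n) (v : Fin m → Poly K c m) (i : Fin m) :
    push f v (f i) = polyMap K c f (v i) := by
  simp only [push, f.injective.eq_iff]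
  simp

theorem push_notMem {m n : ℕ} (f : Fin m ↪ Fin n) (v : Fin m → Poly K c m) (j : Fin n)
    (hj : ∀ i, f i ≠ j) : push f v j = 0 := by
  simp only [push]
  exact Finset.sum_eq_zero fun i _ => by rw [if_neg (hj i)]

theorem sum_push {m n : ℕ} (f : Fin m ↪ Fin n) (v : Fin m → Poly K c m) :
    ∑ j, push f v j = polyMap K c f (∑ i, v i) := by
  simp only [push]
  rw [Finset.sum_comm, map_sum]
  exact Finset.sum_congr rfl fun i _ => by simp

theorem polyMap_id (n : ℕ) (p : Poly K c n) :
    polyMap K c (Function.Embedding.refl (Fin n)) p = p :=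
  rename_id_apply p

theorem polyMap_comp {l m n : ℕ} (f : Fin l ↪ Fin m) (g : Fin m ↪ Fin n) (p : Poly K c l) :
    polyMap K c (f.trans g) p = polyMap K c g (polyMap K c f p) := by
  simp only [polyMap, rename_rename]
  rfl

theorem push_id (n : ℕ) (v : Fin n → Poly K c n) :
    push (Function.Embedding.refl (Fin n)) v = v := by
  funext j
  have := push_apply (Function.Embedding.refl (Fin n)) v j
  rw [polyMap_id] at this
  exact this

theorem push_comp {l m n : ℕ} (f : Fin l ↪ Fin m) (g : Fin m ↪ Fin n)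
    (v : Fin l → Poly K c l) : push (f.trans g) v = push g (push f v) := by
  funext j
  by_cases hj : ∃ k, g k = j
  · obtain ⟨k, rfl⟩ := hj
    rw [push_apply]
    by_cases hk : ∃ i, f i = k
    · obtain ⟨i, rfl⟩ := hk
      rw [push_apply, ← polyMap_comp]
      exact push_apply (f.trans g) v i
    · push Not at hk
      rw [push_notMem f v k hk, map_zero]
      refine push_notMem _ _ _ fun i hi => hk i (g.injective hi)
  · push Not at hj
    rw [push_notMem g _ j hj]
    exact push_notMem _ _ _ fun i => hj (f i)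

end push

section ideals

variable (K : Type u) [Field K] (c : ℕ) [NeZero c]

/-- `f_{(1,j)} = X (X - 1)`, `f_{(i,j)} = X` for `i ≥ 2`. -/
noncomputable def fam (n : ℕ) (a : Fin c × Fin n) : Polynomial K :=
  if a.1 = 0 then Polynomial.X * (Polynomial.X - Polynomial.C 1) else Polynomial.X

theorem fam_monic (n : ℕ) (a : Fin c × Fin n) : (fam K c n a).Monic := by
  unfold fam
  split_ifs
  · exact Polynomial.monic_X.mul (Polynomial.monic_X_sub_C 1)
  · exact Polynomial.monic_X

/-- `q_j = x_{1,j} (x_{1,j} - 1)` -/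
noncomputable def q (n : ℕ) (j : Fin n) : Poly K c n := X (0, j) * (X (0, j) - 1)

theorem F_fam_zero (n : ℕ) (j : Fin n) : F (fam K c n) (0, j) = q K c n j := by
  simp [F, fam, q]

theorem F_fam_ne (n : ℕ) (a : Fin c × Fin n) (ha : a.1 ≠ 0) : F (fam K c n) a = X a := by
  simp [F, fam, ha]

/-- The ideal `I_n`. -/
noncomputable def IA (n : ℕ) : Ideal (Poly K c n) := I (fam K c n) Set.univ

/-- The ideal `I_{n,j}`. -/
noncomputable def IJ (n : ℕ) (j : Fin n) : Ideal (Poly K c n) :=
  I (fam K c n) {a | a ≠ (0, j)}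

theorem IJ_le (n : ℕ) (j : Fin n) : IJ K c n j ≤ IA K c n := I_mono _ (Set.subset_univ _)

theorem q_mem (n : ℕ) (j : Fin n) : q K c n j ∈ IA K c n := by
  rw [← F_fam_zero]
  exact F_mem _ (Set.mem_univ _)

theorem q_mem_IJ (n : ℕ) (j k : Fin n) (h : k ≠ j) : q K c n k ∈ IJ K c n j := by
  rw [← F_fam_zero]
  refine F_mem _ ?_
  simp [h]

theorem IA_eq (n : ℕ) (j : Fin n) : IA K c n = IJ K c n j ⊔ Ideal.span {q K c n j} := by
  rw [← F_fam_zero]
  unfold IA IJ
  rw [← I_insert]
  congr 1
  ext a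
  simp only [Set.mem_univ, Set.mem_insert_iff, Set.mem_ofPred_eq, true_iff]
  tauto

variable {K c}

/-- `P(ε)` maps `f_a(x_a)` to `f_{ε a}(x_{ε a})`. -/
theorem polyMap_F {m n : ℕ} (f : Fin m ↪ Fin n) (a : Fin c × Fin m) :
    polyMap K c f (F (fam K c m) a) = F (fam K c n) (a.1, f a.2) := by
  unfold F
  rw [← Polynomial.aeval_algHom_apply]
  simp [polyMap, fam]

theorem polyMap_q {m n : ℕ} (f : Fin m ↪ Fin n) (j : Fin m) :
    polyMap K c f (q K c m j) = q K c n (f j) := by
  rw [← F_fam_zero, polyMap_F, F_fam_zero]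

theorem polyMap_I {m n : ℕ} (f : Fin m ↪ Fin n) (S : Set (Fin c × Fin m))
    (T : Set (Fin c × Fin n)) (h : ∀ a ∈ S, (a.1, f a.2) ∈ T) (p : Poly K c m)
    (hp : p ∈ I (fam K c m) S) : polyMap K c f p ∈ I (fam K c n) T := by
  refine Submodule.span_induction
    (p := fun q _ => polyMap K c f q ∈ I (fam K c n) T) ?_ ?_ ?_ ?_ hp
  · rintro _ ⟨b, hb, rfl⟩
    rw [polyMap_F]
    exact F_mem _ (h b hb)
  · rw [map_zero]; exact Ideal.zero_mem _
  · intro x y _ _ hx hy
    rw [map_add]; exact Ideal.add_mem _ hx hy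
  · intro r x _ hx
    rw [smul_eq_mul, map_mul]; exact Ideal.mul_mem_left _ _ hx

end ideals

section module

variable {K : Type u} [Field K] (c : ℕ) [NeZero c] (α β : K)

/-- `S_j = α + (β - α) x_{1,j}`. -/
noncomputable def SS (n : ℕ) (j : Fin n) : Poly K c n := C α + C (β - α) * X (0, j)

theorem polyMap_SS {m n : ℕ} (f : Fin m ↪ Fin n) (j : Fin m) :
    polyMap K c f (SS c α β m j) = SS c α β n (f j) := by
  simp [SS, polyMap]

/-- The `j`-th coordinate `S_j ∑ v_i + v_j + q_j g_j`. -/
noncomputable def coord (n : ℕ) (j : Fin n) :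
    ((Fin n → Poly K c n) × (Fin n → Poly K c n)) →ₗ[Poly K c n] Poly K c n where
  toFun vg := SS c α β n j * (∑ i, vg.1 i) + vg.1 j + q K c n j * vg.2 j
  map_add' x y := by
    simp only [Prod.fst_add, Prod.snd_add, Pi.add_apply, Finset.sum_add_distrib]
    ring
  map_smul' r x := by
    simp only [Prod.smul_fst, Prod.smul_snd, Pi.smul_apply, smul_eq_mul, ← Finset.mul_sum,
      RingHom.id_apply]
    ring

theorem coord_apply (n : ℕ) (j : Fin n)
    (vg : (Fin n → Poly K c n) × (Fin n → Poly K c n)) :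
    coord c α β n j vg = SS c α β n j * (∑ i, vg.1 i) + vg.1 j + q K c n j * vg.2 j := rfl

/-- The submodule of relations. -/
noncomputable def W (n : ℕ) :
    Submodule (Poly K c n) ((Fin n → Poly K c n) × (Fin n → Poly K c n)) where
  carrier := {vg | (∀ i, vg.1 i ∈ IA K c n) ∧ ∀ j, coord c α β n j vg ∈ IJ K c n j}
  add_mem' := by
    rintro x y ⟨hx1, hx2⟩ ⟨hy1, hy2⟩
    refine ⟨fun i => Ideal.add_mem _ (hx1 i) (hy1 i), fun j => ?_⟩
    rw [map_add]
    exact Ideal.add_mem _ (hx2 j) (hy2 j)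
  zero_mem' := by
    refine ⟨fun i => Ideal.zero_mem _, fun j => ?_⟩
    rw [map_zero]
    exact Ideal.zero_mem _
  smul_mem' := by
    rintro r x ⟨hx1, hx2⟩
    refine ⟨fun i => Ideal.mul_mem_left _ _ (hx1 i), fun j => ?_⟩
    rw [map_smul]
    exact Ideal.mul_mem_left _ _ (hx2 j)

theorem mem_W (n : ℕ) (vg : (Fin n → Poly K c n) × (Fin n → Poly K c n)) :
    vg ∈ W c α β n ↔ (∀ i, vg.1 i ∈ IA K c n) ∧ ∀ j, coord c α β n j vg ∈ IJ K c n j := Iff.rfl

/-- The `P_n`-module `M_n`. -/
abbrev MM (n : ℕ) : Type u :=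
  ((Fin n → Poly K c n) × (Fin n → Poly K c n)) ⧸ W c α β n

/-- The semilinear map of free modules induced by an injection. -/
noncomputable def pushL {m n : ℕ} (f : Fin m ↪ Fin n) :
    ((Fin m → Poly K c m) × (Fin m → Poly K c m))
      →ₛₗ[(polyMap K c f : Poly K c m →+* Poly K c n)]
        ((Fin n → Poly K c n) × (Fin n → Poly K c n)) where
  toFun vg := (push f vg.1, push f vg.2)
  map_add' x y := by
    rw [Prod.fst_add, Prod.snd_add, push_add, push_add]; rfl
  map_smul' r x := by
    rw [Prod.smul_fst, Prod.smul_snd, push_smul, push_smul]; rfl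

omit [NeZero c] in
theorem pushL_apply {m n : ℕ} (f : Fin m ↪ Fin n)
    (vg : (Fin m → Poly K c m) × (Fin m → Poly K c m)) :
    pushL c f vg = (push f vg.1, push f vg.2) := rfl

theorem W_le {m n : ℕ} (f : Fin m ↪ Fin n) :
    W c α β m ≤ (W c α β n).comap (pushL c f) := by
  rintro ⟨v, g⟩ ⟨h1, h2⟩
  have hsum : polyMap K c f (∑ i, v i) ∈ I (fam K c n) {a | ∃ i, a.2 = f i} := by
    refine polyMap_I f Set.univ {a | ∃ i, a.2 = f i} (fun a _ => ⟨a.2, rfl⟩) _ ?_
    exact Ideal.sum_mem _ fun i _ => h1 i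
  rw [Submodule.mem_comap, mem_W]
  refine ⟨fun j => ?_, fun j => ?_⟩
  · by_cases hj : ∃ i, f i = j
    · obtain ⟨i, rfl⟩ := hj
      change push f v (f i) ∈ _
      rw [push_apply]
      exact polyMap_I f Set.univ Set.univ (fun _ _ => Set.mem_univ _) _ (h1 i)
    · push Not at hj
      change push f v j ∈ _
      rw [push_notMem f v j hj]
      exact Ideal.zero_mem _
  · rw [coord_apply, pushL_apply]
    simp only [sum_push]
    by_cases hj : ∃ i, f i = j
    · obtain ⟨i, rfl⟩ := hj
      rw [push_apply, push_apply, ← polyMap_SS, ← polyMap_q, ← map_mul, ← map_mul, ← map_add,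
        ← map_add]
      refine polyMap_I f _ _ ?_ _ (h2 i)
      rintro ⟨a1, a2⟩ ha
      simp only [Set.mem_ofPred_eq, ne_eq, Prod.mk.injEq, not_and] at ha ⊢
      intro h0 h3
      exact ha h0 (f.injective h3)
    · push Not at hj
      rw [push_notMem f v j hj, push_notMem f g j hj, mul_zero, add_zero, add_zero]
      refine Ideal.mul_mem_left _ _ (I_mono _ ?_ hsum)
      rintro ⟨a1, a2⟩ ⟨i, hi⟩
      simp only [Set.mem_ofPred_eq, ne_eq, Prod.mk.injEq, not_and]
      intro _ h3
      exact hj i (by rw [← h3]; exact hi.symm)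

/-- The FI-module `M(α, β)`. -/
noncomputable def mod : FIModule K c where
  obj := MM c α β
  map := fun f => (Submodule.mapQ _ _ (pushL c f) (W_le c α β f)).toAddMonoidHom
  map_id := by
    intro n u
    obtain ⟨x, rfl⟩ := Submodule.Quotient.mk_surjective _ u
    change (Submodule.Quotient.mk (pushL c _ x) : MM c α β n) = _
    rw [pushL_apply, push_id, push_id]
  map_comp := by
    intro l m n f g u
    obtain ⟨x, rfl⟩ := Submodule.Quotient.mk_surjective _ u
    change (Submodule.Quotient.mk (pushL c _ x) : MM c α β n) =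
      Submodule.Quotient.mk (pushL c g (pushL c f x))
    rw [pushL_apply, push_comp, push_comp]
    rfl
  map_smul := by
    intro m n f p u
    exact LinearMap.map_smulₛₗ (Submodule.mapQ _ _ (pushL c f) (W_le c α β f)) p u

end module

end Pool.Agent.Y233.OI
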